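import Pool.Agent.W240.CD.Disc
import Pool.Agent.H691R3.Places

/-! Project CD: lower bound for the truncated counting function of the zeros of a cubic form. -/

set_option autoImplicit false

namespace Pool.Agent.W240.CD

open NumberField IsDedekindDomain Finset
open Pool.Agent.W4.CF Pool.Agent.H691R3

variable {K : Type} [Field K] [NumberField K]

theorem fv_int (w : HeightOneSpectrum (𝓞 K)) (n : ℤ) : fv w (n : K) ≤ 1 := by
  have h := FinitePlace.norm_le_one (K := K) w (n : 𝓞 K)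
  have h2 : (algebraMap (𝓞 K) K) (n : 𝓞 K) = (n : K) := by simp
  rw [h2] at h
  exact h

theorem fv_lt_iff (w : HeightOneSpectrum (𝓞 K)) (x : 𝓞 K) :
    fv w (algebraMap (𝓞 K) K x) < 1 ↔ x ∈ w.asIdeal :=
  FinitePlace.norm_lt_one_iff_mem (K := K) w x

theorem fv_nat_lt_iff (w : HeightOneSpectrum (𝓞 K)) (n : ℕ) :
    fv w (n : K) < 1 ↔ (n : 𝓞 K) ∈ w.asIdeal := by
  have h := fv_lt_iff w (n : 𝓞 K)
  have h2 : (algebraMap (𝓞 K) K) (n : 𝓞 K) = (n : K) := by simp
  rw [h2] at h
  exact h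

/-- coprime integers are not both small -/
theorem max_one (w : HeightOneSpectrum (𝓞 K)) (u v : ℤ) (h : IsCoprime u v) :
    max (fv w (u : K)) (fv w (v : K)) = 1 := by
  refine le_antisymm (max_le (fv_int w u) (fv_int w v)) ?_
  obtain ⟨a, b, hab⟩ := h
  have h1 : ((a : K) * u + b * v) = 1 := by exact_mod_cast congrArg (Int.cast : ℤ → K) hab
  calc (1 : ℝ) = fv w ((a : K) * u + b * v) := by rw [h1, map_one]
    _ ≤ max (fv w ((a : K) * u)) (fv w ((b : K) * v)) := fv_na w _ _
    _ ≤ max (fv w (u : K)) (fv w (v : K)) := by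
        refine max_le_max ?_ ?_
        · rw [map_mul]
          exact mul_le_of_le_one_left ((fv w).nonneg _) (fv_int w a)
        · rw [map_mul]
          exact mul_le_of_le_one_left ((fv w).nonneg _) (fv_int w b)

/-- a prime in `w` divides the norm of `w` -/
theorem dvd_norm (w : HeightOneSpectrum (𝓞 K)) (p : ℕ) (hp : p.Prime) (h : fv w (p : K) < 1) :
    p ∣ Ideal.absNorm w.asIdeal := by
  by_contra hc
  have h1 : IsCoprime (p : ℤ) (Ideal.absNorm w.asIdeal : ℤ) :=
    Nat.isCoprime_iff_coprime.2 ((Nat.Prime.coprime_iff_not_dvd hp).2 hc)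
  have h2 := max_one w _ _ h1
  have h3 : fv w ((Ideal.absNorm w.asIdeal : ℕ) : K) < 1 := by
    rw [fv_nat_lt_iff]
    exact Ideal.absNorm_mem w.asIdeal
  have h4 : max (fv w ((p : ℤ) : K)) (fv w (((Ideal.absNorm w.asIdeal : ℕ) : ℤ) : K)) < 1 := by
    rw [Int.cast_natCast, Int.cast_natCast]
    exact max_lt h h3
  linarith

/-- at most one rational prime below `w` -/
theorem uniq (w : HeightOneSpectrum (𝓞 K)) (p q : ℕ) (hp : p.Prime) (hq : q.Prime)
    (h : fv w (p : K) < 1) (h' : fv w (q : K) < 1) : p = q := by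
  by_contra hc
  have h1 : IsCoprime (p : ℤ) (q : ℤ) :=
    Nat.isCoprime_iff_coprime.2 ((Nat.coprime_primes hp hq).2 hc)
  have h2 := max_one (K := K) w _ _ h1
  rw [Int.cast_natCast, Int.cast_natCast] at h2
  linarith [max_lt h h']

/-- away from the different, the order of `p` is at most one -/
theorem unram (w : HeightOneSpectrum (𝓞 K)) (hw : ¬ w.asIdeal ∣ differentIdeal ℤ (𝓞 K)) (p : ℕ)
    (hp : p.Prime) : - Real.log (fv w (p : K)) ≤ Real.log (Nv w) := by
  have hp0 : (p : K) ≠ 0 := by exact_mod_cast hp.ne_zero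
  obtain ⟨n, hn⟩ := fv_zpow w hp0
  have hN := two_le_Nv w
  have hN0 : (0 : ℝ) < Nv w := by linarith
  rw [hn, Real.log_zpow]
  by_contra hc
  push Not at hc
  have hlog := log_Nv_pos w
  have hn2 : n ≤ -2 := by
    by_contra h
    push Not at h
    have : (-1 : ℝ) ≤ n := by exact_mod_cast (by omega : -1 ≤ n)
    nlinarith
  have hmem : (p : 𝓞 K) ∈ w.asIdeal ^ 2 := by
    rw [← w.intValuation_le_pow_iff_mem]
    have h1 : fv w ((p : 𝓞 K) : K) = _ := NumberField.FinitePlace.norm_embedding_int K w (p : 𝓞 K)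
    have hp1 : (p : 𝓞 K) ≠ 0 := by exact_mod_cast hp.ne_zero
    have hx' : w.intValuation (p : 𝓞 K) ≠ 0 := w.intValuation_ne_zero _ hp1
    rw [WithZeroMulInt.toNNReal_neg_apply _ hx'] at h1
    have h2 : fv w ((p : 𝓞 K) : K) = (Nv w) ^ (Multiplicative.toAdd (WithZero.unzero hx')) := by
      refine h1.trans ?_
      push_cast
      rfl
    have h3 : (((p : 𝓞 K) : K)) = (p : K) := by simp
    rw [h3, hn] at h2
    have h4 : n = Multiplicative.toAdd (WithZero.unzero hx') :=
      zpow_right_injective₀ hN0 (by linarith) h2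
    rw [← WithZero.coe_unzero hx']
    change ((WithZero.unzero hx' : Multiplicative ℤ) : WithZero (Multiplicative ℤ)) ≤
      ((Multiplicative.ofAdd (-((2 : ℕ) : ℤ)) : Multiplicative ℤ) : WithZero (Multiplicative ℤ))
    rw [WithZero.coe_le_coe, ← Multiplicative.toAdd_le, ← h4]
    exact hn2
  apply hw
  have : Fact p.Prime := ⟨hp⟩
  have hmax : (Ideal.span {(p : ℤ)}).IsMaximal :=
    Int.ideal_span_isMaximal_of_prime p
  have h5 := pow_sub_one_dvd_differentIdeal ℤ (p := Ideal.span {(p : ℤ)}) w.asIdeal 2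
    (by
      rw [Ne, Ideal.span_singleton_eq_bot]
      exact_mod_cast hp.ne_zero)
    (by
      rw [Ideal.map_span, Set.image_singleton, Ideal.dvd_iff_le, Ideal.span_singleton_le_iff_mem]
      simpa using hmem)
  simpa using h5

/-- the primes over `p` -/
noncomputable def Sp (K : Type) [Field K] [NumberField K] (p : ℕ) (hp : (p : K) ≠ 0) :
    Finset (HeightOneSpectrum (𝓞 K)) := (fv_support_finite (K := K) hp).toFinset

theorem mem_Sp (p : ℕ) (hp : (p : K) ≠ 0) (w : HeightOneSpectrum (𝓞 K)) :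
    w ∈ Sp K p hp ↔ fv w (p : K) < 1 := by
  unfold Sp
  rw [Set.Finite.mem_toFinset, Set.mem_ofPred_eq]
  have h := fv_int w (p : ℤ)
  rw [Int.cast_natCast] at h
  exact ⟨fun h' => lt_of_le_of_ne h h', fun h' => h'.ne⟩

theorem sum_Sp (p : ℕ) (hp : p.Prime) (hp0 : (p : K) ≠ 0)
    (h : ∀ w ∈ Sp K p hp0, ¬ w.asIdeal ∣ differentIdeal ℤ (𝓞 K)) :
    (Module.finrank ℚ K : ℝ) * Real.log p ≤ ∑ w ∈ Sp K p hp0, Real.log (Nv w) := by
  have h1 := log_product_formula (K := K) hp0
  have h2 : ∑ᶠ v : HeightOneSpectrum (𝓞 K), Real.log (fv v (p : K)) =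
      ∑ w ∈ Sp K p hp0, Real.log (fv w (p : K)) := by
    refine finsum_eq_sum_of_support_subset _ ?_
    intro w hw
    unfold Sp
    rw [Set.Finite.coe_toFinset]
    simp only [Function.mem_support] at hw
    intro h'
    rw [h', Real.log_one] at hw
    exact hw rfl
  have h3 : ∑ w : InfinitePlace K, (w.mult : ℝ) * Real.log (w (p : K)) =
      (Module.finrank ℚ K : ℝ) * Real.log p := by
    have h4 : ∀ w : InfinitePlace K, w (p : K) = (p : ℝ) := fun w => by
      rw [← InfinitePlace.norm_embedding_eq, map_natCast, Complex.norm_natCast]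
    simp_rw [h4]
    rw [← Finset.sum_mul]
    congr 1
    exact_mod_cast InfinitePlace.sum_mult_eq (K := K)
  rw [h3, h2] at h1
  have h5 : ∑ w ∈ Sp K p hp0, (- Real.log (fv w (p : K))) ≤ ∑ w ∈ Sp K p hp0, Real.log (Nv w) :=
    Finset.sum_le_sum fun w hw => unram w (h w hw) p hp
  rw [Finset.sum_neg_distrib] at h5
  linarith

end Pool.Agent.W240.CD
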