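import Pool.Agent.W240.CD.Cnt

/-! Project CD: lower bound for the truncated counting function of the zeros of a cubic form. -/

set_option autoImplicit false

namespace Pool.Agent.W240.CD

open NumberField IsDedekindDomain Finset
open Pool.Agent.W4.CF Pool.Agent.H691R3

variable {K : Type} [Field K] [NumberField K]

open Classical in
/-- the primes over `p` -/
noncomputable def Sq (K : Type) [Field K] [NumberField K] (p : ℕ) :
    Finset (HeightOneSpectrum (𝓞 K)) := if h : (p : K) ≠ 0 then Sp K p h else ∅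

theorem Sq_eq (p : ℕ) (h : (p : K) ≠ 0) : Sq K p = Sp K p h := by
  unfold Sq
  rw [dif_pos h]

/-- the local term -/
noncomputable def gt (α : Fin 3 → K × K) (z : K) (w : HeightOneSpectrum (𝓞 K)) : ℝ :=
  ∑ l : Fin 3, min (lamA (fv w) (z, 1) (α l) / (Module.finrank ℚ K : ℝ))
    (Real.log (Nv w) / (Module.finrank ℚ K : ℝ))

theorem count_eq (T : Set (HeightOneSpectrum (𝓞 K))) (α : Fin 3 → K × K) (z : K) :
    countingK T α z = ∑ᶠ w, Set.indicator Tᶜ (gt α z) w := by
  rw [← finsum_mem_def]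
  rfl

theorem n_pos : (0 : ℝ) < (Module.finrank ℚ K : ℝ) := by
  exact_mod_cast Module.finrank_pos (R := ℚ) (M := K)

theorem pz_ne (z : K) : ((z, 1) : K × K) ≠ 0 := fun h => one_ne_zero (congrArg Prod.snd h)

section

variable {α : Fin 3 → K × K} {z : K}

theorem gt_nonneg (hα0 : ∀ i, α i ≠ 0) (hz : ∀ l, z * (α l).2 - 1 * (α l).1 ≠ 0)
    (w : HeightOneSpectrum (𝓞 K)) : 0 ≤ gt α z w :=
  Finset.sum_nonneg fun l _ => le_min
    (div_nonneg (lamF_nonneg w (pz_ne z) (hα0 l) (hz l)) n_pos.le)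
    (div_nonneg (log_Nv_pos w).le n_pos.le)

theorem gt_fin (hα0 : ∀ i, α i ≠ 0) (hz : ∀ l, z * (α l).2 - 1 * (α l).1 ≠ 0) :
    (Function.support (gt α z)).Finite := by
  refine (Set.finite_iUnion fun l : Fin 3 =>
    lamF_support_finite (pz_ne z) (hα0 l) (hz l)).subset ?_
  intro w hw
  rw [Set.mem_iUnion]
  by_contra hc
  push Not at hc
  apply hw
  unfold gt
  refine Finset.sum_eq_zero fun l _ => ?_
  have h1 : lamA (fv w) (z, 1) (α l) = 0 := by
    by_contra h
    exact hc l h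
  rw [h1, zero_div]
  exact min_eq_left (div_nonneg (log_Nv_pos w).le n_pos.le)

theorem gt_ge (hα0 : ∀ i, α i ≠ 0) (hz : ∀ l, z * (α l).2 - 1 * (α l).1 ≠ 0)
    (w : HeightOneSpectrum (𝓞 K)) (l : Fin 3) (hl : lamA (fv w) (z, 1) (α l) ≠ 0) :
    Real.log (Nv w) / (Module.finrank ℚ K : ℝ) ≤ gt α z w := by
  obtain ⟨m, hm⟩ := lamF_discrete w (pz_ne z) (hα0 l) (hz l)
  have hm1 : (1 : ℝ) ≤ m := by
    rcases Nat.eq_zero_or_pos m with h | h
    · rw [h, Nat.cast_zero, zero_mul] at hm
      exact absurd hm hl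
    · exact_mod_cast h
  have h1 : Real.log (Nv w) ≤ lamA (fv w) (z, 1) (α l) := by
    rw [hm]
    nlinarith [log_Nv_pos w]
  have h2 : min (lamA (fv w) (z, 1) (α l) / (Module.finrank ℚ K : ℝ))
      (Real.log (Nv w) / (Module.finrank ℚ K : ℝ)) =
      Real.log (Nv w) / (Module.finrank ℚ K : ℝ) :=
    min_eq_right (div_le_div_of_nonneg_right h1 n_pos.le)
  rw [← h2]
  exact Finset.single_le_sum (f := fun l => min (lamA (fv w) (z, 1) (α l) /
      (Module.finrank ℚ K : ℝ)) (Real.log (Nv w) / (Module.finrank ℚ K : ℝ)))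
    (fun i _ => le_min (div_nonneg (lamF_nonneg w (pz_ne z) (hα0 i) (hz i)) n_pos.le)
      (div_nonneg (log_Nv_pos w).le n_pos.le)) (Finset.mem_univ l)

end

/-- if all local heights vanish then the value of the form is a unit -/
theorem unit_of (w : HeightOneSpectrum (𝓞 K)) (α : Fin 3 → K × K) (κ : K) (u v : ℤ)
    (huv : IsCoprime u v) (hv : (v : K) ≠ 0) (hα0 : ∀ i, α i ≠ 0)
    (hz : ∀ l, (u : K) / v * (α l).2 - 1 * (α l).1 ≠ 0)
    (h1 : fv w κ = 1) (h2 : ∀ l, max (fv w (α l).1) (fv w (α l).2) = 1)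
    (h3 : ∀ l, lamA (fv w) ((u : K) / v, 1) (α l) = 0) :
    fv w (κ * (((u : K) * (α 0).2 - v * (α 0).1) * ((u : K) * (α 1).2 - v * (α 1).1) *
        ((u : K) * (α 2).2 - v * (α 2).1))) = 1 := by
  have hvp : 0 < fv w (v : K) := (fv w).pos hv
  have hM : fv w (v : K) * max (fv w ((u : K) / v)) (fv w 1) = 1 := by
    rw [← max_mul_max (fv w) (p := ((u : K) / v, 1)) (v : K)]
    simp only [mul_one]
    rw [mul_div_cancel₀ _ hv]
    exact max_one w u v huv
  have h4 : ∀ l, fv w ((u : K) * (α l).2 - v * (α l).1) = 1 := by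
    intro l
    have h5 := lamA_eq (fv w) (pz_ne ((u : K) / v)) (hα0 l) (hz l)
    rw [h3 l, h2 l, Real.log_one, add_zero] at h5
    have h6 : Real.log (fv w ((u : K) / v * (α l).2 - 1 * (α l).1)) =
        Real.log (max (fv w ((u : K) / v)) (fv w 1)) := by
      simp only at h5
      linarith
    have h7 := Real.log_injOn_pos (Set.mem_Ioi.2 ((fv w).pos (hz l)))
      (Set.mem_Ioi.2 (max_pos (fv w) (pz_ne ((u : K) / v)))) h6
    have h8 : (u : K) * (α l).2 - v * (α l).1 = v * ((u : K) / v * (α l).2 - 1 * (α l).1) := by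
      field_simp
    rw [h8, map_mul, h7]
    exact hM
  rw [map_mul, map_mul, map_mul, h1, h4, h4, h4]
  norm_num

theorem t_CNT : S_CNT := by
  intro K _ _ T hT α hα0 hα a b c d h0 h
  classical
  obtain ⟨κ, hκ, hF⟩ := fac α hα a b c d h0 h
  have hfin : (((T ∪ {w : HeightOneSpectrum (𝓞 K) | w.asIdeal ∣ differentIdeal ℤ (𝓞 K)}) ∪
      {w | fv w κ ≠ 1}) ∪ ⋃ l : Fin 3, {w | max (fv w (α l).1) (fv w (α l).2) ≠ 1}).Finite := by
    refine ((hT.union (Ideal.finite_factors ?_)).union (fv_support_finite hκ)).union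
      (Set.finite_iUnion fun l => max_support_finite (hα0 l))
    exact differentIdeal_ne_bot
  set W := hfin.toFinset with hW
  have hWn : ∀ w, w ∉ W → w ∉ T ∧ ¬ w.asIdeal ∣ differentIdeal ℤ (𝓞 K) ∧ fv w κ = 1 ∧
      ∀ l : Fin 3, max (fv w (α l).1) (fv w (α l).2) = 1 := by
    intro w hw
    rw [hW, Set.Finite.mem_toFinset] at hw
    simp only [Set.mem_union, Set.mem_ofPred_eq, Set.mem_iUnion, not_or, not_exists, not_not] at hw
    exact ⟨hw.1.1.1, hw.1.1.2, hw.1.2, hw.2⟩
  refine ⟨∏ w ∈ W, Ideal.absNorm w.asIdeal, ?_, fun u v huv hv hFuv => ?_⟩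
  · refine Nat.one_le_iff_ne_zero.2 (Finset.prod_ne_zero_iff.2 fun w _ => ?_)
    have := NumberField.HeightOneSpectrum.one_lt_absNorm w
    omega
  · have hvK : (v : K) ≠ 0 := by exact_mod_cast hv
    have hFK : ((F3 a b c d u v : ℤ) : K) = κ * (((u : K) * (α 0).2 - v * (α 0).1) *
        ((u : K) * (α 1).2 - v * (α 1).1) * ((u : K) * (α 2).2 - v * (α 2).1)) := by
      rw [← hF]
      unfold F3
      push_cast
      ring
    have hFK0 : ((F3 a b c d u v : ℤ) : K) ≠ 0 := by exact_mod_cast hFuv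
    have hL : ∀ l : Fin 3, (u : K) * (α l).2 - v * (α l).1 ≠ 0 := by
      intro l hl
      apply hFK0
      rw [hFK]
      fin_cases l
      · simp only [Fin.zero_eta] at hl
        rw [hl]; ring
      · simp only [Fin.mk_one] at hl
        rw [hl]; ring
      · simp only [Fin.reduceFinMk] at hl
        rw [hl]; ring
    have hz : ∀ l : Fin 3, (u : K) / v * (α l).2 - 1 * (α l).1 ≠ 0 := by
      intro l hl
      apply hL l
      have h8 : (u : K) * (α l).2 - v * (α l).1 =
          v * ((u : K) / v * (α l).2 - 1 * (α l).1) := by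
        field_simp
      rw [h8, hl, mul_zero]
    set P := (F3 a b c d u v).natAbs.primeFactors.filter
      (fun p => ¬ p ∣ ∏ w ∈ W, Ideal.absNorm w.asIdeal) with hP
    have hPp : ∀ p ∈ P, p.Prime ∧ (p : ℤ) ∣ F3 a b c d u v ∧
        ¬ p ∣ ∏ w ∈ W, Ideal.absNorm w.asIdeal := by
      intro p hp
      rw [hP, Finset.mem_filter, Nat.mem_primeFactors] at hp
      exact ⟨hp.1.1, Int.natCast_dvd.2 hp.1.2.1, hp.2⟩
    have hS : ∀ p ∈ P, ∀ w, w ∈ Sq K p ↔ fv w (p : K) < 1 := by
      intro p hp w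
      have hp0 : (p : K) ≠ 0 := by exact_mod_cast (hPp p hp).1.ne_zero
      rw [Sq_eq p hp0, mem_Sp]
    have hSW : ∀ p ∈ P, ∀ w ∈ Sq K p, w ∉ W := by
      intro p hp w hw hwW
      apply (hPp p hp).2.2
      exact (dvd_norm w p (hPp p hp).1 ((hS p hp w).1 hw)).trans
        (Finset.dvd_prod_of_mem (fun w : HeightOneSpectrum (𝓞 K) => Ideal.absNorm w.asIdeal) hwW)
    have hge : ∀ p ∈ P, ∀ w ∈ Sq K p, Real.log (Nv w) / (Module.finrank ℚ K : ℝ) ≤
        gt α ((u : K) / v) w := by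
      intro p hp w hw
      obtain ⟨_, _, h3, h4⟩ := hWn w (hSW p hp w hw)
      by_cases hc : ∃ l, lamA (fv w) ((u : K) / v, 1) (α l) ≠ 0
      · obtain ⟨l, hl⟩ := hc
        exact gt_ge hα0 hz w l hl
      · push Not at hc
        exfalso
        have h5 := unit_of w α κ u v huv hvK hα0 hz h3 h4 hc
        rw [← hFK] at h5
        obtain ⟨k, hk⟩ := (hPp p hp).2.1
        rw [hk] at h5
        push_cast at h5
        rw [map_mul] at h5
        have h6 := (hS p hp w).1 hw
        have h7 := fv_int w k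
        nlinarith [(fv w).nonneg (p : K), (fv w).nonneg (k : K)]
    have hn := n_pos (K := K)
    calc ∑ p ∈ P, Real.log (p : ℝ)
        ≤ ∑ p ∈ P, ∑ w ∈ Sq K p, Real.log (Nv w) / (Module.finrank ℚ K : ℝ) := by
          refine Finset.sum_le_sum fun p hp => ?_
          have hp0 : (p : K) ≠ 0 := by exact_mod_cast (hPp p hp).1.ne_zero
          rw [← Finset.sum_div, le_div_iff₀ hn, mul_comm, Sq_eq p hp0]
          refine sum_Sp p (hPp p hp).1 hp0 fun w hw => ?_
          rw [← Sq_eq p hp0] at hw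
          exact (hWn w (hSW p hp w hw)).2.1
      _ ≤ ∑ p ∈ P, ∑ w ∈ Sq K p, gt α ((u : K) / v) w :=
          Finset.sum_le_sum fun p hp => Finset.sum_le_sum fun w hw => hge p hp w hw
      _ = ∑ w ∈ P.biUnion (Sq K), gt α ((u : K) / v) w := by
          rw [Finset.sum_biUnion]
          intro p hp q hq hpq
          refine Finset.disjoint_left.2 fun w hw hw' => hpq ?_
          exact uniq w p q (hPp p hp).1 (hPp q hq).1 ((hS p hp w).1 hw) ((hS q hq w).1 hw')
      _ = ∑ w ∈ P.biUnion (Sq K), Set.indicator Tᶜ (gt α ((u : K) / v)) w := by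
          refine Finset.sum_congr rfl fun w hw => ?_
          obtain ⟨p, hp, hw'⟩ := Finset.mem_biUnion.1 hw
          rw [Set.indicator_of_mem]
          exact (hWn w (hSW p hp w hw')).1
      _ ≤ ∑ w ∈ P.biUnion (Sq K) ∪ (gt_fin hα0 hz).toFinset,
            Set.indicator Tᶜ (gt α ((u : K) / v)) w :=
          Finset.sum_le_sum_of_subset_of_nonneg Finset.subset_union_left fun w _ _ =>
            Set.indicator_nonneg (fun w _ => gt_nonneg hα0 hz w) w
      _ = countingK T α ((u : K) / (v : K)) := by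
          rw [count_eq, finsum_eq_sum_of_support_subset]
          intro w hw
          rw [Finset.coe_union, Set.Finite.coe_toFinset]
          right
          intro h'
          apply hw
          by_cases hwT : w ∈ Tᶜ
          · rw [Set.indicator_of_mem hwT, h']
          · rw [Set.indicator_of_notMem hwT]

end Pool.Agent.W240.CD
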