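import Pool.Agent.W4.CF.Stms4

/-! Project CD: factorization of a binary cubic form with three given zeros. -/

set_option autoImplicit false

namespace Pool.Agent.W240.CD

open Pool.Agent.W4.CF

section

variable {K : Type*} [Field K]

theorem fac1 (g1 e1 g2 e2 g3 e3 a b c d : K) (h12 : g1 * e2 - e1 * g2 ≠ 0)
    (h13 : g1 * e3 - e1 * g3 ≠ 0) (h32 : g3 * e2 - e3 * g2 ≠ 0)
    (h1 : a * g1 ^ 3 + b * g1 ^ 2 * e1 + c * g1 * e1 ^ 2 + d * e1 ^ 3 = 0)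
    (h2 : a * g2 ^ 3 + b * g2 ^ 2 * e2 + c * g2 * e2 ^ 2 + d * e2 ^ 3 = 0)
    (h3 : a * g3 ^ 3 + b * g3 ^ 2 * e3 + c * g3 * e3 ^ 2 + d * e3 ^ 3 = 0) :
    ∃ κ : K, ∀ X Y : K, a * X ^ 3 + b * X ^ 2 * Y + c * X * Y ^ 2 + d * Y ^ 3 =
      κ * ((X * e1 - Y * g1) * (X * e2 - Y * g2) * (X * e3 - Y * g3)) := by
  set B := 3 * a * g1 ^ 2 * g2 + b * (g1 ^ 2 * e2 + 2 * g1 * g2 * e1) +
    c * (e1 ^ 2 * g2 + 2 * e1 * e2 * g1) + 3 * d * e1 ^ 2 * e2 with hB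
  set C := 3 * a * g2 ^ 2 * g1 + b * (g2 ^ 2 * e1 + 2 * g1 * g2 * e2) +
    c * (e2 ^ 2 * g1 + 2 * e1 * e2 * g2) + 3 * d * e2 ^ 2 * e1 with hC
  have hE : ∀ X Y : K, (g1 * e2 - e1 * g2) ^ 3 * (a * X ^ 3 + b * X ^ 2 * Y + c * X * Y ^ 2 +
      d * Y ^ 3) = (a * g1 ^ 3 + b * g1 ^ 2 * e1 + c * g1 * e1 ^ 2 + d * e1 ^ 3) *
      (X * e2 - Y * g2) ^ 3 + (X * e2 - Y * g2) * (g1 * Y - e1 * X) *
      (B * (X * e2 - Y * g2) + C * (g1 * Y - e1 * X)) +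
      (a * g2 ^ 3 + b * g2 ^ 2 * e2 + c * g2 * e2 ^ 2 + d * e2 ^ 3) * (g1 * Y - e1 * X) ^ 3 := by
    intro X Y
    rw [hB, hC]
    ring
  have h4 := hE g3 e3
  rw [h1, h2, h3, mul_zero, zero_mul, zero_mul, zero_add, add_zero] at h4
  have h5 : B * (g3 * e2 - e3 * g2) + C * (g1 * e3 - e1 * g3) = 0 := by
    rcases mul_eq_zero.1 h4.symm with h | h
    · exact absurd h (mul_ne_zero h32 h13)
    · exact h
  refine ⟨-B / ((g1 * e2 - e1 * g2) ^ 2 * (g1 * e3 - e1 * g3)), fun X Y => ?_⟩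
  rw [div_mul_eq_mul_div, eq_div_iff (mul_ne_zero (pow_ne_zero 2 h12) h13)]
  refine mul_left_cancel₀ h12 ?_
  have h6 := hE X Y
  rw [h1, h2, zero_mul, zero_mul, zero_add, add_zero] at h6
  linear_combination (g1 * e3 - e1 * g3) * h6 + (X * e2 - Y * g2) * (g1 * Y - e1 * X) *
    (g1 * Y - e1 * X) * h5

variable [CharZero K]

theorem fac (α : Fin 3 → K × K)
    (hα : ∀ i j, i ≠ j → (α i).1 * (α j).2 - (α i).2 * (α j).1 ≠ 0) (a b c d : ℤ)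
    (h0 : (a, b, c, d) ≠ (0, 0, 0, 0))
    (h : ∀ i, (a : K) * (α i).1 ^ 3 + b * (α i).1 ^ 2 * (α i).2 + c * (α i).1 * (α i).2 ^ 2 +
      d * (α i).2 ^ 3 = 0) :
    ∃ κ : K, κ ≠ 0 ∧ ∀ X Y : K, a * X ^ 3 + b * X ^ 2 * Y + c * X * Y ^ 2 + d * Y ^ 3 =
      κ * ((X * (α 0).2 - Y * (α 0).1) * (X * (α 1).2 - Y * (α 1).1) *
        (X * (α 2).2 - Y * (α 2).1)) := by
  obtain ⟨κ, hκ⟩ := fac1 (α 0).1 (α 0).2 (α 1).1 (α 1).2 (α 2).1 (α 2).2 (a : K) b c d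
    (hα 0 1 (by decide)) (hα 0 2 (by decide)) (hα 2 1 (by decide)) (h 0) (h 1) (h 2)
  refine ⟨κ, ?_, hκ⟩
  rintro rfl
  simp only [zero_mul] at hκ
  have e1 := hκ 1 0
  have e2 := hκ 0 1
  have e3 := hκ 1 1
  have e4 := hκ 1 (-1)
  have ha : (a : K) = 0 := by linear_combination e1
  have hd : (d : K) = 0 := by linear_combination e2
  have hc : (2 : K) * (b : K) = 0 := by linear_combination e3 - e4 - 2 * e2
  have hb : (b : K) = 0 := by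
    rcases mul_eq_zero.1 hc with h' | h'
    · norm_num at h'
    · exact h'
  have hc : (c : K) = 0 := by linear_combination e3 - e1 - e2 - hb
  apply h0
  have ha' : a = 0 := by exact_mod_cast ha
  have hb' : b = 0 := by exact_mod_cast hb
  have hc' : c = 0 := by exact_mod_cast hc
  have hd' : d = 0 := by exact_mod_cast hd
  rw [ha', hb', hc', hd']

end

theorem t_DISC : S_DISC := by
  intro K _ _ α hα0 hα a b c d h0 h
  obtain ⟨κ, hκ, hF⟩ := fac α hα a b c d h0 h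
  have e1 := hF 1 0
  have e2 := hF 0 1
  have e3 := hF 1 1
  have e4 := hF 1 (-1)
  set g1 := (α 0).1
  set f1 := (α 0).2
  set g2 := (α 1).1
  set f2 := (α 1).2
  set g3 := (α 2).1
  set f3 := (α 2).2
  have ha : (a : K) = κ * (f1 * f2 * f3) := by linear_combination e1
  have hd : (d : K) = -κ * (g1 * g2 * g3) := by linear_combination e2
  have hb2 : (2 : K) * b = 2 * (-κ * (g1 * f2 * f3 + f1 * g2 * f3 + f1 * f2 * g3)) := by
    linear_combination e3 - e4 - 2 * e2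
  have hb : (b : K) = -κ * (g1 * f2 * f3 + f1 * g2 * f3 + f1 * f2 * g3) :=
    mul_left_cancel₀ two_ne_zero hb2
  have hc : (c : K) = κ * (g1 * g2 * f3 + g1 * f2 * g3 + f1 * g2 * g3) := by
    linear_combination e3 - e1 - e2 - hb
  have hD : ((disc3 a b c d : ℤ) : K) = κ ^ 4 * ((g1 * f2 - f1 * g2) * (g1 * f3 - f1 * g3) *
      (g2 * f3 - f2 * g3)) ^ 2 := by
    unfold disc3
    push_cast
    rw [ha, hb, hc, hd]
    ring
  intro hz
  rw [hz, Int.cast_zero] at hD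
  have := mul_ne_zero (pow_ne_zero 4 hκ) (pow_ne_zero 2 (mul_ne_zero (mul_ne_zero
    (hα 0 1 (by decide)) (hα 0 2 (by decide))) (hα 1 2 (by decide))))
  exact this hD.symm

end Pool.Agent.W240.CD
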